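import Pool.Agent.P8H30.LG.Yent
import Pool.Agent.P8H93.CY.Eli
import Pool.Agent.P8H5.CY.Gre
import Pool.Agent.P8H16.LG.Wro
import Pool.Agent.P8H26.LG.Rec
import Pool.Agent.P8H52.LG.Leg
import Pool.Agent.P8H52.LG.Ode
import Pool.Agent.P8H59.LG.Gen

/-!
# Project LG: relations between complete elliptic integrals at several points
-/

set_option autoImplicit false

open PowerSeries Module

namespace Pool.Agent.P8H30.LG

open Pool.Agent.TH818.AR (KK EE)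
open Pool.Agent.P8H40.HA (Ya)
open Pool.Agent.P8H40.CY (ptk)

theorem final2 (c : ℕ) (hc : 1 ≤ c) :
    ∃ (G t₀ : ℕ) (J : ℕ → Matrix (Fin 2) (Fin 2) ℚ) (Jl : Matrix (Fin 2) (Fin 2) ℚ) (Y : ℕ → Matrix (Fin 2) (Fin 2) ℂ),
      (∀ t, Y t = Ya al c t) ∧ 1 ≤ G ∧ c < t₀ ∧
      (∀ t : ℕ, t₀ ≤ t → (J t).transpose = -J t ∧
        (Y t).transpose * (J t).map (algebraMap ℚ ℂ) * Y t = Jl.map (algebraMap ℚ ℂ)) ∧
      ∀ k r δ D : ℕ, ∃ (κ : ℝ) (M₀ : ℕ), 0 < κ ∧ t₀ ≤ M₀ ∧ ∀ M : ℕ, M₀ ≤ M → ∀ z : Fin r → ℂ,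
        ∀ T : Finset ℕ, (∀ t ∈ T, M ≤ t ∧ (t : ℝ) ≤ M + (M : ℝ) ^ κ) → (∀ t ∈ T, ∀ t' ∈ T, t ≠ t' → (G : ℤ) ≤ |(t : ℤ) - t'|) →
        ∃ Es : Finset ℕ, Es ⊆ T ∧ Es.card ≤ r + 1 ∧ ∀ t : Fin k → ℕ, Function.Injective t → (∀ l, t l ∈ T \ Es) →
          ∀ (K : IntermediateField ℚ ℂ) [FiniteDimensional ℚ K], finrank ℚ K ≤ D →
            ∀ (R : Fin k → Matrix (Fin 2) (Fin 2) K) (Ω : Fin k → Matrix (Fin 2) (Fin 2) ℂ),
              (∀ l i j, ∃ p : MvPolynomial (Fin r) K, (∀ x, p.degreeOf x ≤ δ) ∧ Ω l i j = MvPolynomial.aeval z p) →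
              ∀ F : MvPolynomial (Fin r ⊕ Fin k × Option (Fin 2 × Fin 2)) K, (∀ x, F.degreeOf x ≤ δ) →
                MvPolynomial.aeval (ptk z (fun l => ((Real.log (t l) : ℝ) : ℂ))
                  fun l => (R l).map (algebraMap K ℂ) * Y (t l) * Ω l) F = 0 →
                ∀ (L : Fin k → ℂ) (X : Fin k → Matrix (Fin 2) (Fin 2) ℂ),
                  (∀ l, (X l).transpose * (J (t l)).map (algebraMap ℚ ℂ) * X l = Jl.map (algebraMap ℚ ℂ)) →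
                  MvPolynomial.aeval (ptk z L fun l => (R l).map (algebraMap K ℂ) * X l * Ω l) F = 0 := by
  have hα : ∀ j, ∀ a : ℤ, al j ≠ a := by
    intro j a h
    have h2 : (1 : ℚ) = 2 * a := by
      have : al j = 1 / 2 := rfl
      rw [this] at h
      linarith
    have h3 : (1 : ℤ) = 2 * a := by exact_mod_cast h2
    omega
  obtain ⟨G, t₀, J, Jl, hG1, htc, -, -, hJ, -, hmain⟩ := Pool.Agent.P8H40.CY.final_T Pool.Agent.P8H93.CY.eli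
    (Pool.Agent.P8H5.CY.gre Pool.Agent.P8H40.CY.clt) (m := 1) le_rfl al hα c hc
  exact ⟨G, t₀, J, Jl, fun t => Ya al c t, fun t => rfl, hG1, htc, fun t ht => ⟨(hJ t ht).1, (hJ t ht).2.2.1⟩, hmain⟩

theorem alt2 (J X : Matrix (Fin 2) (Fin 2) ℂ) (hJ : J.transpose = -J) : X.transpose * J * X = X.det • J := by
  have h00 : J 0 0 = 0 := by
    have h := congrFun (congrFun hJ 0) 0
    rw [Matrix.transpose_apply, Matrix.neg_apply] at h
    linear_combination (1 / 2 : ℂ) * h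
  have h11 : J 1 1 = 0 := by
    have h := congrFun (congrFun hJ 1) 1
    rw [Matrix.transpose_apply, Matrix.neg_apply] at h
    linear_combination (1 / 2 : ℂ) * h
  have h10 : J 1 0 = -J 0 1 := by
    have h := congrFun (congrFun hJ 0) 1
    rw [Matrix.transpose_apply, Matrix.neg_apply] at h
    exact h
  ext i j
  rw [Matrix.mul_apply, Fin.sum_univ_two, Matrix.mul_apply, Matrix.mul_apply, Fin.sum_univ_two, Fin.sum_univ_two,
    Matrix.smul_apply, Matrix.det_fin_two, smul_eq_mul]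
  simp only [Matrix.transpose_apply]
  fin_cases i <;> fin_cases j <;> simp only [Fin.zero_eta, Fin.mk_one, Fin.isValue, h00, h11, h10] <;> ring

/-- the period matrix at `x` -/
noncomputable def Pm (x : ℝ) : Matrix (Fin 2) (Fin 2) ℂ :=
  !![((KK x : ℝ) : ℂ), ((KK (1 - x) : ℝ) : ℂ); ((EE x : ℝ) : ℂ), ((KK (1 - x) - EE (1 - x) : ℝ) : ℂ)]

theorem Pm_det (hLEG : S_LEG) (x : ℝ) (hx0 : 0 < x) (hx1 : x < 1) : (Pm x).det = -((Real.pi / 2 : ℝ) : ℂ) := by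
  have h := hLEG.1 x hx0 hx1
  unfold Pm
  rw [Matrix.det_fin_two_of, ← Complex.ofReal_mul, ← Complex.ofReal_mul, ← Complex.ofReal_sub, ← Complex.ofReal_neg]
  congr 1
  linarith

/-- the conclusion of `S_WRO` -/
theorem wro : ∃ A : ℝ, ∀ x : ℝ, 0 < x → x < 1 →
    KK x = Real.pi / 2 * f x ∧ EE x - (1 - x) * KK x = Real.pi * (1 - x) * h x ∧
    KK (1 - x) = A * f x - 1 / 2 * (g x + Real.log x * f x) ∧
    EE (1 - x) - x * KK (1 - x) = -(2 * (1 - x)) * (A * h x - 1 / 2 * (f x + p x + Real.log x * h x)) :=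
  Pool.Agent.P8H16.LG.wro (Pool.Agent.P8H52.LG.ode Pool.Agent.P8H26.LG.t_rec Pool.Agent.P8H59.LG.gen).1
    (Pool.Agent.P8H52.LG.ode Pool.Agent.P8H26.LG.t_rec Pool.Agent.P8H59.LG.gen).2 Pool.Agent.P8H52.LG.leg

theorem mat_eq {a b d e a' b' d' e' : ℂ} (h1 : a = a') (h2 : b = b') (h3 : d = d') (h4 : e = e') :
    !![a, b; d, e] = !![a', b'; d', e'] := by
  rw [h1, h2, h3, h4]

/-- the decomposition of the period matrix -/
theorem decomp {A : ℝ} (hA : ∀ x : ℝ, 0 < x → x < 1 →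
      KK x = Real.pi / 2 * f x ∧ EE x - (1 - x) * KK x = Real.pi * (1 - x) * h x ∧
      KK (1 - x) = A * f x - 1 / 2 * (g x + Real.log x * f x) ∧
      EE (1 - x) - x * KK (1 - x) = -(2 * (1 - x)) * (A * h x - 1 / 2 * (f x + p x + Real.log x * h x)))
    (c t : ℕ) (hc : 1 ≤ c) (hct : c < t) :
    !![(1 : ℂ), 0; 1 - (c : ℂ) / t, 2 * (1 - (c : ℂ) / t)] * !![((f ((c : ℝ) / t) : ℝ) : ℂ),
        ((g ((c : ℝ) / t) + Real.log (1 / t) * f ((c : ℝ) / t) : ℝ) : ℂ);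
      ((h ((c : ℝ) / t) : ℝ) : ℂ), ((f ((c : ℝ) / t) + p ((c : ℝ) / t) + Real.log (1 / t) * h ((c : ℝ) / t) : ℝ) : ℂ)] *
      !![((Real.pi / 2 : ℝ) : ℂ), ((A - 1 / 2 * Real.log c : ℝ) : ℂ); 0, ((-1 / 2 : ℝ) : ℂ)] = Pm ((c : ℝ) / t) := by
  have ht0 : (0 : ℝ) < t := by
    have : 0 < t := by omega
    exact_mod_cast this
  have hc0 : (0 : ℝ) < c := by exact_mod_cast hc
  have hx0 : 0 < (c : ℝ) / t := by positivity
  have hx1 : (c : ℝ) / t < 1 := by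
    rw [div_lt_one ht0]
    exact_mod_cast hct
  obtain ⟨h1, h2, h3, h4⟩ := hA _ hx0 hx1
  have hlog : Real.log ((c : ℝ) / t) = Real.log c + Real.log (1 / t) := by
    rw [Real.log_div hc0.ne' ht0.ne', one_div, Real.log_inv]
    ring
  rw [hlog] at h3 h4
  have hcast : (c : ℂ) / t = (((c : ℝ) / t : ℝ) : ℂ) := by push_cast; rfl
  rw [hcast]
  generalize (c : ℝ) / t = x at *
  generalize Real.log (c : ℝ) = lc at *
  generalize Real.log (1 / (t : ℝ)) = lt at *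
  have e1 : (1 : ℂ) - (x : ℂ) = ((1 - x : ℝ) : ℂ) := by push_cast; rfl
  unfold Pm
  rw [Matrix.mul_fin_two, Matrix.mul_fin_two, e1]
  have k1 : ((EE x : ℝ) : ℂ) = ((EE x - (1 - x) * KK x : ℝ) : ℂ) + ((1 - x : ℝ) : ℂ) * ((KK x : ℝ) : ℂ) := by
    push_cast; ring
  have k2 : ((KK (1 - x) - EE (1 - x) : ℝ) : ℂ) = (1 - (x : ℂ)) * ((KK (1 - x) : ℝ) : ℂ) -
      ((EE (1 - x) - x * KK (1 - x) : ℝ) : ℂ) := by
    push_cast; ring
  rw [k1, k2, h4, h3, h2, h1]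
  refine mat_eq ?_ ?_ ?_ ?_ <;> push_cast <;> ring

end Pool.Agent.P8H30.LG
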