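import Pool.Agent.P8H30.LG.Main2

/-!
# Project LG: periods and quasi-periods divided by the square root of `π`
-/

set_option autoImplicit false

open Module

namespace Pool.Agent.P8H30.LG

open Pool.Agent.P8H40.CY (ptk)
open Pool.Agent.TH818.AR (KK EE)

theorem deg_bind {τ σ : Type} [Fintype τ] {K : Type} [Field K] (θ : τ → MvPolynomial σ K) (e δ : ℕ)
    (hθ : ∀ x y, (θ x).degreeOf y ≤ e) (F : MvPolynomial τ K) (hF : ∀ x, F.degreeOf x ≤ δ) (y : σ) :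
    (MvPolynomial.bind₁ θ F).degreeOf y ≤ Fintype.card τ * (δ * e) := by
  classical
  show (MvPolynomial.aeval θ F).degreeOf y ≤ _
  rw [MvPolynomial.aeval_def, MvPolynomial.eval₂_eq']
  refine (MvPolynomial.degreeOf_sum_le _ _ _).trans (Finset.sup_le fun m hm => ?_)
  rw [MvPolynomial.algebraMap_eq]
  refine (MvPolynomial.degreeOf_C_mul_le _ _ _).trans ?_
  refine (MvPolynomial.degreeOf_prod_le _ _ _).trans ?_
  have h1 : ∀ x ∈ (Finset.univ : Finset τ), (θ x ^ m x).degreeOf y ≤ δ * e := by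
    intro x _
    refine (MvPolynomial.degreeOf_pow_le _ _ _).trans ?_
    exact Nat.mul_le_mul ((MvPolynomial.monomial_le_degreeOf x hm).trans (hF x)) (hθ x y)
  refine (Finset.sum_le_sum h1).trans ?_
  rw [Finset.sum_const, Finset.card_univ, smul_eq_mul]

/-- a matrix with given determinant and given value at a vector -/
theorem exists_mat (u1 u2 X Y d al : ℂ) (hu : u1 ≠ 0 ∨ u2 ≠ 0) (hX : X ≠ 0) : ∃ Z : Matrix (Fin 2) (Fin 2) ℂ, Z.det = d ∧
    u1 * Z 0 0 + u2 * Z 0 1 = X ∧ u1 * (Z 1 0 - al * Z 0 0) + u2 * (Z 1 1 - al * Z 0 1) = Y := by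
  by_cases h1 : u1 = 0
  · have h2 : u2 ≠ 0 := by
      rcases hu with h | h
      · exact absurd h1 h
      · exact h
    refine ⟨!![0, X / u2; -d * u2 / X, Y / u2 + al * (X / u2)], ?_, ?_, ?_⟩
    · rw [Matrix.det_fin_two_of]
      field_simp
      ring
    · show u1 * 0 + u2 * (X / u2) = X
      field_simp
      ring
    · show u1 * (-d * u2 / X - al * 0) + u2 * ((Y / u2 + al * (X / u2)) - al * (X / u2)) = Y
      rw [h1]
      field_simp
      ring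
  · refine ⟨!![X / u1, 0; (Y - d * u1 / X * u2) / u1 + al * (X / u1), d * u1 / X], ?_, ?_, ?_⟩
    · rw [Matrix.det_fin_two_of]
      field_simp
      ring
    · show u1 * (X / u1) + u2 * 0 = X
      field_simp
      ring
    · show u1 * (((Y - d * u1 / X * u2) / u1 + al * (X / u1)) - al * (X / u1)) + u2 * (d * u1 / X - al * 0) = Y
      field_simp
      ring

/-- the numbers `ω/√π`, `η/√π`, `log t` -/
noncomputable def num (c t : ℕ) (a b : ℤ) : Fin 3 → ℂ :=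
  ![(2 * a * ((KK ((c : ℝ) / t) : ℝ) : ℂ) + 2 * b * Complex.I * ((KK (1 - (c : ℝ) / t) : ℝ) : ℂ)) / ((√Real.pi : ℝ) : ℂ),
    (2 * a * (((EE ((c : ℝ) / t) - (2 - (c : ℝ) / t) / 3 * KK ((c : ℝ) / t) : ℝ)) : ℂ) -
      2 * b * Complex.I * ((EE (1 - (c : ℝ) / t) - (1 + (c : ℝ) / t) / 3 * KK (1 - (c : ℝ) / t) : ℝ) : ℂ)) / ((√Real.pi : ℝ) : ℂ),
    ((Real.log t : ℝ) : ℂ)]

theorem diaz (c : ℕ) (hc : 1 ≤ c) : ∃ (G : ℕ), 1 ≤ G ∧ ∀ k r δ D : ℕ, ∃ (κ : ℝ) (M₀ : ℕ), 0 < κ ∧ c < M₀ ∧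
    ∀ M : ℕ, M₀ ≤ M → ∀ (w : Fin r → ℂ),
      ∀ T : Finset ℕ, (∀ t ∈ T, M ≤ t ∧ (t : ℝ) ≤ M + (M : ℝ) ^ κ) → (∀ t ∈ T, ∀ t' ∈ T, t ≠ t' → (G : ℤ) ≤ |(t : ℤ) - t'|) →
      ∃ S : Finset ℕ, S ⊆ T ∧ S.card ≤ r + 4 ∧ ∀ t : Fin k → ℕ, Function.Injective t → (∀ l, t l ∈ T \ S) →
        ∀ a b : Fin k → ℤ, (∀ l, a l ≠ 0 ∨ b l ≠ 0) →
        ∀ (K : IntermediateField ℚ ℂ) [FiniteDimensional ℚ K], finrank ℚ K ≤ D → Complex.I ∈ K →
          ∀ F : MvPolynomial (Fin r ⊕ Fin k × Fin 3) K, (∀ x, F.degreeOf x ≤ δ) →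
            MvPolynomial.aeval (Sum.elim w fun s : Fin k × Fin 3 => num c (t s.1) (a s.1) (b s.1) s.2) F = 0 →
            ∀ x : Fin k × Fin 3 → ℂ, (∀ l, x (l, 0) ≠ 0) → MvPolynomial.aeval (Sum.elim w x) F = 0 := by
  obtain ⟨G, hG1, hG⟩ := core_w c hc
  refine ⟨G, hG1, fun k r δ D => ?_⟩
  obtain ⟨κ, M₀, hκ, hM₀, h⟩ := hG k (r + 1) (Fintype.card (Fin r ⊕ Fin k × Fin 3) * (δ * 2)) D
  refine ⟨κ, M₀, hκ, hM₀, fun M hM w T hT hTs => ?_⟩
  have hpi : (0 : ℝ) < Real.pi := Real.pi_pos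
  set s : ℂ := ((√Real.pi : ℝ) : ℂ) with hs
  have hs0 : s ≠ 0 := by
    rw [hs]
    exact Complex.ofReal_ne_zero.2 (Real.sqrt_ne_zero'.2 hpi)
  have hs2 : s ^ 2 = (Real.pi : ℂ) := by
    rw [hs, ← Complex.ofReal_pow, Real.sq_sqrt hpi.le]
  obtain ⟨S, hST, hS, hSt⟩ := h M hM (Fin.snoc w s⁻¹) s (Or.inr hs2) T hT hTs
  refine ⟨S, hST, hS, fun t htinj htS a b hab K _ hK hI F hF hrel x hx => ?_⟩
  set z : Fin (r + 1 + 1) → ℂ := Fin.snoc (Fin.snoc w s⁻¹ : Fin (r + 1) → ℂ) s with hz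
  have hz1 : ∀ i : Fin r, z i.castSucc.castSucc = w i := by
    intro i
    have e1 : z i.castSucc.castSucc = (Fin.snoc w s⁻¹ : Fin (r + 1) → ℂ) i.castSucc := Fin.snoc_castSucc (α := fun _ => ℂ) _ _ _
    rw [e1]
    exact Fin.snoc_castSucc (α := fun _ => ℂ) _ _ _
  have hz2 : z (Fin.last r).castSucc = s⁻¹ := by
    have e1 : z (Fin.last r).castSucc = (Fin.snoc w s⁻¹ : Fin (r + 1) → ℂ) (Fin.last r) := Fin.snoc_castSucc (α := fun _ => ℂ) _ _ _
    rw [e1]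
    exact Fin.snoc_last (α := fun _ => ℂ) _ _
  obtain ⟨iK, hiK⟩ : ∃ i : K, algebraMap K ℂ i = Complex.I := ⟨⟨Complex.I, hI⟩, rfl⟩
  obtain ⟨al, hal'⟩ : ∃ u : Fin k → K, ∀ l, u l = (2 - (c : K) / (t l : K)) / 3 := ⟨_, fun _ => rfl⟩
  obtain ⟨u1, hu1'⟩ : ∃ u : Fin k → K, ∀ l, u l = 2 * (a l : K) := ⟨_, fun _ => rfl⟩
  obtain ⟨u2, hu2'⟩ : ∃ u : Fin k → K, ∀ l, u l = 2 * (b l : K) * iK := ⟨_, fun _ => rfl⟩
  let V : Type := Fin (r + 1 + 1) ⊕ Fin k × Option (Fin 2 × Fin 2)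
  let σ : V := Sum.inl (Fin.last r).castSucc
  let e : Fin k → Fin 2 → Fin 2 → MvPolynomial V K := fun l i j => MvPolynomial.X (Sum.inr (l, some (i, j)))
  let θ : Fin r ⊕ Fin k × Fin 3 → MvPolynomial V K := Sum.elim (fun i => MvPolynomial.X (Sum.inl i.castSucc.castSucc))
    fun q => ![MvPolynomial.X σ * (MvPolynomial.C (u1 q.1) * e q.1 0 0 + MvPolynomial.C (u2 q.1) * e q.1 0 1),
      MvPolynomial.X σ * (MvPolynomial.C (u1 q.1) * (e q.1 1 0 - MvPolynomial.C (al q.1) * e q.1 0 0) +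
        MvPolynomial.C (u2 q.1) * (e q.1 1 1 - MvPolynomial.C (al q.1) * e q.1 0 1)),
      MvPolynomial.X (Sum.inr (q.1, none))] q.2
  have hdX : ∀ (v y : V), (MvPolynomial.X v : MvPolynomial V K).degreeOf y ≤ 1 := by
    intro v y
    classical
    rw [MvPolynomial.degreeOf_X]
    split_ifs <;> omega
  have hθ : ∀ q y, (θ q).degreeOf y ≤ 2 := by
    intro q y
    rcases q with i | ⟨l, j⟩
    · exact (hdX _ y).trans (by omega)
    · fin_cases j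
      · refine (MvPolynomial.degreeOf_mul_le _ _ _).trans ?_
        have h1 := hdX σ y
        have h2 : (MvPolynomial.C (u1 l) * e l 0 0 + MvPolynomial.C (u2 l) * e l 0 1).degreeOf y ≤ 1 := by
          refine (MvPolynomial.degreeOf_add_le _ _ _).trans (max_le ?_ ?_)
          · exact (MvPolynomial.degreeOf_C_mul_le _ _ _).trans (hdX _ y)
          · exact (MvPolynomial.degreeOf_C_mul_le _ _ _).trans (hdX _ y)
        exact Nat.add_le_add h1 h2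
      · refine (MvPolynomial.degreeOf_mul_le _ _ _).trans ?_
        have h1 := hdX σ y
        have h2 : (MvPolynomial.C (u1 l) * (e l 1 0 - MvPolynomial.C (al l) * e l 0 0) +
            MvPolynomial.C (u2 l) * (e l 1 1 - MvPolynomial.C (al l) * e l 0 1)).degreeOf y ≤ 1 := by
          refine (MvPolynomial.degreeOf_add_le _ _ _).trans (max_le ?_ ?_)
          · refine (MvPolynomial.degreeOf_C_mul_le _ _ _).trans ((MvPolynomial.degreeOf_sub_le _ _ _).trans (max_le (hdX _ y) ?_))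
            exact (MvPolynomial.degreeOf_C_mul_le _ _ _).trans (hdX _ y)
          · refine (MvPolynomial.degreeOf_C_mul_le _ _ _).trans ((MvPolynomial.degreeOf_sub_le _ _ _).trans (max_le (hdX _ y) ?_))
            exact (MvPolynomial.degreeOf_C_mul_le _ _ _).trans (hdX _ y)
        exact Nat.add_le_add h1 h2
      · exact (hdX _ y).trans (by omega)
  have hev : ∀ (L : Fin k → ℂ) (Z : Fin k → Matrix (Fin 2) (Fin 2) ℂ) (x' : Fin k × Fin 3 → ℂ),
      (∀ l, x' (l, 0) = s⁻¹ * ((u1 l : ℂ) * Z l 0 0 + (u2 l : ℂ) * Z l 0 1)) →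
      (∀ l, x' (l, 1) = s⁻¹ * ((u1 l : ℂ) * (Z l 1 0 - (al l : ℂ) * Z l 0 0) + (u2 l : ℂ) * (Z l 1 1 - (al l : ℂ) * Z l 0 1))) →
      (∀ l, x' (l, 2) = L l) →
      MvPolynomial.aeval (ptk z L Z) (MvPolynomial.bind₁ θ F) = MvPolynomial.aeval (Sum.elim w x') F := by
    intro L Z x' h0 h1 h2
    rw [MvPolynomial.aeval_bind₁]
    congr 2
    funext q
    rcases q with i | ⟨l, j⟩
    · show MvPolynomial.aeval (ptk z L Z) (MvPolynomial.X (Sum.inl i.castSucc.castSucc)) = w i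
      rw [MvPolynomial.aeval_X]
      exact hz1 i
    · have hC : ∀ v : K, MvPolynomial.aeval (ptk z L Z) (MvPolynomial.C v : MvPolynomial V K) = (v : ℂ) := fun v =>
        MvPolynomial.aeval_C _ _
      have he : ∀ i j, MvPolynomial.aeval (ptk z L Z) (e l i j) = Z l i j := fun i j => MvPolynomial.aeval_X _ _
      have hσ : MvPolynomial.aeval (ptk z L Z) (MvPolynomial.X σ : MvPolynomial V K) = s⁻¹ := by
        rw [MvPolynomial.aeval_X]
        exact hz2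
      fin_cases j
      · show MvPolynomial.aeval (ptk z L Z) (MvPolynomial.X σ * (MvPolynomial.C (u1 l) * e l 0 0 +
          MvPolynomial.C (u2 l) * e l 0 1)) = x' (l, 0)
        rw [map_mul, map_add, map_mul, map_mul, hC, hC, he, he, hσ, h0]
      · show MvPolynomial.aeval (ptk z L Z) (MvPolynomial.X σ * (MvPolynomial.C (u1 l) * (e l 1 0 - MvPolynomial.C (al l) * e l 0 0) +
          MvPolynomial.C (u2 l) * (e l 1 1 - MvPolynomial.C (al l) * e l 0 1))) = x' (l, 1)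
        rw [map_mul, map_add, map_mul, map_mul, map_sub, map_sub, map_mul, map_mul, hC, hC, hC, he, he, he, he, hσ, h1]
      · show MvPolynomial.aeval (ptk z L Z) (MvPolynomial.X (Sum.inr (l, none))) = x' (l, 2)
        rw [MvPolynomial.aeval_X, h2]
        rfl
  have hu1 : ∀ l, (u1 l : ℂ) = 2 * (a l : ℂ) := by
    intro l
    have h2 : (algebraMap K ℂ) (2 : K) = 2 := map_ofNat _ 2
    show algebraMap K ℂ (u1 l) = _
    rw [hu1', map_mul, h2, map_intCast]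
  have hu2 : ∀ l, (u2 l : ℂ) = 2 * (b l : ℂ) * Complex.I := by
    intro l
    have h2 : (algebraMap K ℂ) (2 : K) = 2 := map_ofNat _ 2
    show algebraMap K ℂ (u2 l) = _
    rw [hu2', map_mul, map_mul, h2, map_intCast, hiK]
  have hal : ∀ l, (al l : ℂ) = (2 - (c : ℂ) / (t l : ℂ)) / 3 := by
    intro l
    have h2 : (algebraMap K ℂ) (2 : K) = 2 := map_ofNat _ 2
    have h3 : (algebraMap K ℂ) (3 : K) = 3 := map_ofNat _ 3
    show algebraMap K ℂ (al l) = _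
    rw [hal', map_div₀, map_sub, map_div₀, h2, h3, map_natCast, map_natCast]
  -- the relation at the periods
  have hrel2 : MvPolynomial.aeval (ptk z (fun l => ((Real.log (t l) : ℝ) : ℂ)) fun l => Pm ((c : ℝ) / t l)) (MvPolynomial.bind₁ θ F) = 0 := by
    rw [hev _ _ (fun q => num c (t q.1) (a q.1) (b q.1) q.2) ?_ ?_ ?_]
    · exact hrel
    · intro l
      rw [hu1, hu2]
      show (2 * (a l : ℂ) * ((KK ((c : ℝ) / t l) : ℝ) : ℂ) + 2 * (b l : ℂ) * Complex.I * ((KK (1 - (c : ℝ) / t l) : ℝ) : ℂ)) / s =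
        s⁻¹ * (2 * (a l : ℂ) * ((KK ((c : ℝ) / t l) : ℝ) : ℂ) + 2 * (b l : ℂ) * Complex.I * ((KK (1 - (c : ℝ) / t l) : ℝ) : ℂ))
      rw [div_eq_mul_inv, mul_comm]
    · intro l
      rw [hu1, hu2, hal]
      show (2 * (a l : ℂ) * (((EE ((c : ℝ) / t l) - (2 - (c : ℝ) / t l) / 3 * KK ((c : ℝ) / t l) : ℝ)) : ℂ) -
        2 * (b l : ℂ) * Complex.I * ((EE (1 - (c : ℝ) / t l) - (1 + (c : ℝ) / t l) / 3 * KK (1 - (c : ℝ) / t l) : ℝ) : ℂ)) / s =
        s⁻¹ * (2 * (a l : ℂ) * (((EE ((c : ℝ) / t l) : ℝ) : ℂ) - (2 - (c : ℂ) / (t l : ℂ)) / 3 * ((KK ((c : ℝ) / t l) : ℝ) : ℂ)) +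
          2 * (b l : ℂ) * Complex.I * (((KK (1 - (c : ℝ) / t l) - EE (1 - (c : ℝ) / t l) : ℝ) : ℂ) -
            (2 - (c : ℂ) / (t l : ℂ)) / 3 * ((KK (1 - (c : ℝ) / t l) : ℝ) : ℂ)))
      rw [div_eq_mul_inv, mul_comm]
      congr 1
      push_cast
      ring
    · intro l
      rfl
  -- matrices with the given values
  have hmat : ∀ l, ∃ Z : Matrix (Fin 2) (Fin 2) ℂ, Z.det = -((Real.pi / 2 : ℝ) : ℂ) ∧
      (u1 l : ℂ) * Z 0 0 + (u2 l : ℂ) * Z 0 1 = s * x (l, 0) ∧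
      (u1 l : ℂ) * (Z 1 0 - (al l : ℂ) * Z 0 0) + (u2 l : ℂ) * (Z 1 1 - (al l : ℂ) * Z 0 1) = s * x (l, 1) := by
    intro l
    refine exists_mat _ _ _ _ _ _ ?_ (mul_ne_zero hs0 (hx l))
    rcases hab l with h1 | h1
    · left
      rw [hu1]
      exact mul_ne_zero two_ne_zero (by exact_mod_cast h1)
    · right
      rw [hu2]
      exact mul_ne_zero (mul_ne_zero two_ne_zero (by exact_mod_cast h1)) Complex.I_ne_zero
  choose Z hZd hZ0 hZ1 using hmat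
  have h5 := hSt t htinj htS K hK (MvPolynomial.bind₁ θ F) (fun y => deg_bind θ 2 δ hθ F hF y) hrel2 (fun l => x (l, 2)) Z hZd
  rw [hev _ _ x (fun l => by rw [hZ0, ← mul_assoc, inv_mul_cancel₀ hs0, one_mul])
    (fun l => by rw [hZ1, ← mul_assoc, inv_mul_cancel₀ hs0, one_mul]) fun l => rfl] at h5
  exact h5

end Pool.Agent.P8H30.LG
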