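import Pool.Agent.P8H30.LG.Diaz

/-!
# Project LG: from points with nonzero coordinates to all points
-/

set_option autoImplicit false

open Module

namespace Pool.Agent.P8H30.LG

theorem all_of_ne {r k : ℕ} (K : IntermediateField ℚ ℂ) (w : Fin r → ℂ) (F : MvPolynomial (Fin r ⊕ Fin k × Fin 3) K)
    (h : ∀ x : Fin k × Fin 3 → ℂ, (∀ l, x (l, 0) ≠ 0) → MvPolynomial.aeval (Sum.elim w x) F = 0) (x : Fin k × Fin 3 → ℂ) :
    MvPolynomial.aeval (Sum.elim w x) F = 0 := by
  set v : Fin r ⊕ Fin k × Fin 3 → ℂ := Sum.elim (fun _ => 0) fun s => if s.2 = 0 then 1 else 0 with hv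
  set P : Polynomial ℂ := MvPolynomial.aeval (fun q => Polynomial.C (Sum.elim w x q) + Polynomial.X * Polynomial.C (v q)) F with hP
  have hPe : ∀ ε : ℂ, P.eval ε = MvPolynomial.aeval (Sum.elim w fun s : Fin k × Fin 3 => x s + ε * (if s.2 = 0 then 1 else 0)) F := by
    intro ε
    have h1 : P.eval ε = ((Polynomial.aeval ε : Polynomial ℂ →ₐ[ℂ] ℂ).restrictScalars K) P := by
      show P.eval ε = Polynomial.aeval ε P
      rw [Polynomial.coe_aeval_eq_eval]
    rw [h1, hP, MvPolynomial.comp_aeval_apply]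
    congr 2
    funext q
    show Polynomial.aeval ε (Polynomial.C (Sum.elim w x q) + Polynomial.X * Polynomial.C (v q)) = _
    rw [map_add, map_mul, Polynomial.aeval_X, Polynomial.aeval_C, Polynomial.aeval_C]
    rcases q with i | s
    · show w i + ε * 0 = w i
      ring
    · rfl
  have hfin : (Set.range fun l : Fin k => -x (l, 0)).Finite := Set.finite_range _
  have hroot : ∀ ε ∈ (Set.range fun l : Fin k => -x (l, 0))ᶜ, ε ∈ {y | P.IsRoot y} := by
    intro ε hε
    show P.eval ε = 0
    rw [hPe]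
    refine h _ fun l => ?_
    show x (l, 0) + ε * (if (0 : Fin 3) = 0 then 1 else 0) ≠ 0
    rw [if_pos rfl, mul_one]
    intro h0
    exact hε ⟨l, by
      show -x (l, 0) = ε
      linear_combination -h0⟩
  have hP0 : P = 0 := Polynomial.eq_zero_of_infinite_isRoot P (Set.Infinite.mono hroot hfin.infinite_compl)
  have h2 := hPe 0
  rw [hP0, Polynomial.eval_zero] at h2
  rw [h2]
  congr 2
  funext q
  rcases q with i | s
  · rfl
  · show x s = x s + 0 * _
    ring

end Pool.Agent.P8H30.LG
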