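import Pool.Agent.P8H30.LG.Core
import Pool.Agent.P8H22.LG.Alg

/-!
# Project LG: the main theorem
-/

set_option autoImplicit false

open PowerSeries Module

namespace Pool.Agent.P8H30.LG

open Pool.Agent.TH818.AR (KK EE)
open Pool.Agent.P8H40.HA (Ya)
open Pool.Agent.P8H40.CY (ptk)

theorem core (c : ℕ) (hc : 1 ≤ c) : ∃ (A : ℝ) (G : ℕ), 1 ≤ G ∧ ∀ k r δ D : ℕ, ∃ (κ : ℝ) (M₀ : ℕ), 0 < κ ∧ c < M₀ ∧
    ∀ M : ℕ, M₀ ≤ M → ∀ z : Fin r → ℂ,
      (∀ K : IntermediateField ℚ ℂ, ∃ q : MvPolynomial (Fin r) K, (∀ x, q.degreeOf x ≤ 2) ∧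
        ((Real.pi / 2 : ℝ) : ℂ) = MvPolynomial.aeval z q) → (∃ i, z i = (A : ℂ)) →
      ∀ T : Finset ℕ, (∀ t ∈ T, M ≤ t ∧ (t : ℝ) ≤ M + (M : ℝ) ^ κ) → (∀ t ∈ T, ∀ t' ∈ T, t ≠ t' → (G : ℤ) ≤ |(t : ℤ) - t'|) →
      ∃ S : Finset ℕ, S ⊆ T ∧ S.card ≤ r + 1 ∧ ∀ t : Fin k → ℕ, Function.Injective t → (∀ l, t l ∈ T \ S) →
        ∀ (K : IntermediateField ℚ ℂ) [FiniteDimensional ℚ K], finrank ℚ K ≤ D →
          ∀ F : MvPolynomial (Fin r ⊕ Fin k × Option (Fin 2 × Fin 2)) K, (∀ x, F.degreeOf x ≤ δ) →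
            MvPolynomial.aeval (ptk z (fun l => ((Real.log (t l) : ℝ) : ℂ)) fun l => Pm ((c : ℝ) / t l)) F = 0 →
            ∀ (L : Fin k → ℂ) (Z : Fin k → Matrix (Fin 2) (Fin 2) ℂ), (∀ l, (Z l).det = -((Real.pi / 2 : ℝ) : ℂ)) →
              MvPolynomial.aeval (ptk z L Z) F = 0 := by
  obtain ⟨A, hA⟩ := wro
  obtain ⟨G, t₀, J, Jl, Y, hY, hG1, htc, hJ, hmain⟩ := final2 c hc
  refine ⟨A - 1 / 2 * Real.log c, G, hG1, fun k r δ D => ?_⟩
  obtain ⟨κ, M₀, hκ, hM₀, h⟩ := hmain k r (δ + 2) D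
  refine ⟨κ, M₀, hκ, lt_of_lt_of_le htc hM₀, fun M hM z hπ hz T hT hTs => ?_⟩
  obtain ⟨S, hST, hS, hSt⟩ := h M hM z T hT hTs
  refine ⟨S, hST, hS, fun t htinj htS K _ hK F hF hrel L Z hZ => ?_⟩
  have ht : ∀ l, t₀ ≤ t l := fun l => hM₀.trans (hM.trans (hT (t l) (Finset.mem_sdiff.1 (htS l)).1).1)
  have hct : ∀ l, c < t l := fun l => lt_of_lt_of_le htc (ht l)
  set W : Matrix (Fin 2) (Fin 2) ℂ := !![((Real.pi / 2 : ℝ) : ℂ), ((A - 1 / 2 * Real.log c : ℝ) : ℂ); 0, ((-1 / 2 : ℝ) : ℂ)] with hW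
  let R : Fin k → Matrix (Fin 2) (Fin 2) K := fun l => !![1, 0; 1 - (c : K) / (t l : K), 2 * (1 - (c : K) / (t l : K))]
  have hR : ∀ l, (R l).map (algebraMap K ℂ) = !![(1 : ℂ), 0; 1 - (c : ℂ) / t l, 2 * (1 - (c : ℂ) / t l)] := by
    intro l
    have h2 : (algebraMap K ℂ) (2 : K) = 2 := map_ofNat _ 2
    ext i j
    rw [Matrix.map_apply]
    fin_cases i <;> fin_cases j
    · show (algebraMap K ℂ) (1 : K) = 1
      exact map_one _
    · show (algebraMap K ℂ) (0 : K) = 0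
      exact map_zero _
    · show (algebraMap K ℂ) (1 - (c : K) / (t l : K)) = 1 - (c : ℂ) / t l
      rw [map_sub, map_one, map_div₀, map_natCast, map_natCast]
    · show (algebraMap K ℂ) (2 * (1 - (c : K) / (t l : K))) = 2 * (1 - (c : ℂ) / t l)
      rw [map_mul, h2, map_sub, map_one, map_div₀, map_natCast, map_natCast]
  have hYt : ∀ l, (R l).map (algebraMap K ℂ) * Y (t l) * W = Pm ((c : ℝ) / t l) := by
    intro l
    rw [hR l, Ya_mat Pool.Agent.P8H26.LG.t_rec Pool.Agent.P8H59.LG.gen c (t l) hc (hct l) (Y (t l)) (hY (t l))]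
    exact decomp hA c (t l) hc (hct l)
  have hx : ∀ l, 0 < (c : ℝ) / t l ∧ (c : ℝ) / t l < 1 := by
    intro l
    have h1 : (0 : ℝ) < c := by exact_mod_cast hc
    have h2 : (c : ℝ) < t l := by exact_mod_cast hct l
    exact ⟨div_pos h1 (h1.trans h2), (div_lt_one (h1.trans h2)).2 h2⟩
  have hPd : ∀ l, (Pm ((c : ℝ) / t l)).det = -((Real.pi / 2 : ℝ) : ℂ) := fun l => Pm_det Pool.Agent.P8H52.LG.leg _ (hx l).1 (hx l).2
  have hWd : W.det ≠ 0 := by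
    rw [hW, Matrix.det_fin_two_of, mul_zero, sub_zero]
    have h1 : ((Real.pi / 2 : ℝ) : ℂ) ≠ 0 := by
      exact_mod_cast (by positivity : Real.pi / 2 ≠ 0)
    have h2 : ((-1 / 2 : ℝ) : ℂ) ≠ 0 := by
      exact_mod_cast (by norm_num : (-1 / 2 : ℝ) ≠ 0)
    exact mul_ne_zero h1 h2
  have hRd : ∀ l, ((R l).map (algebraMap K ℂ)).det ≠ 0 := by
    intro l
    rw [hR l, Matrix.det_fin_two_of]
    have h1 : (1 : ℂ) - (c : ℂ) / t l ≠ 0 := by
      have h2 := (hx l).2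
      have h3 : (1 : ℝ) - (c : ℝ) / t l ≠ 0 := by linarith
      have h4 : (1 : ℂ) - (c : ℂ) / t l = ((1 - (c : ℝ) / t l : ℝ) : ℂ) := by push_cast; rfl
      rw [h4]
      exact Complex.ofReal_ne_zero.2 h3
    rw [one_mul, zero_mul, sub_zero]
    exact mul_ne_zero two_ne_zero h1
  have hrel2 : MvPolynomial.aeval (ptk z (fun l => ((Real.log (t l) : ℝ) : ℂ))
      fun l => (R l).map (algebraMap K ℂ) * Y (t l) * W) F = 0 := by
    have h1 : (fun l => (R l).map (algebraMap K ℂ) * Y (t l) * W) = fun l => Pm ((c : ℝ) / t l) := funext hYt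
    rw [h1]
    exact hrel
  have hΩ : ∀ (l : Fin k) i j, ∃ p : MvPolynomial (Fin r) K, (∀ x, p.degreeOf x ≤ δ + 2) ∧ W i j = MvPolynomial.aeval z p := by
    intro l i j
    have hC : ∀ a : ℚ, ∃ p : MvPolynomial (Fin r) K, (∀ x, p.degreeOf x ≤ δ + 2) ∧ ((a : ℚ) : ℂ) = MvPolynomial.aeval z p := by
      intro a
      refine ⟨MvPolynomial.C (a : K), fun x => ?_, ?_⟩
      · rw [MvPolynomial.degreeOf_C]
        exact Nat.zero_le _
      · rw [MvPolynomial.aeval_C]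
        simp
    fin_cases i <;> fin_cases j
    · obtain ⟨q, hq, hq2⟩ := hπ K
      exact ⟨q, fun x => (hq x).trans (by omega), hq2⟩
    · obtain ⟨i, hi⟩ := hz
      refine ⟨MvPolynomial.X i, fun x => ?_, ?_⟩
      · rw [MvPolynomial.degreeOf_X]
        split_ifs <;> omega
      · rw [MvPolynomial.aeval_X, hi]
        rfl
    · obtain ⟨p, hp, hp2⟩ := hC 0
      refine ⟨p, hp, ?_⟩
      rw [← hp2, Rat.cast_zero]
      rfl
    · obtain ⟨p, hp, hp2⟩ := hC (-1 / 2)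
      refine ⟨p, hp, ?_⟩
      rw [← hp2]
      show ((-1 / 2 : ℝ) : ℂ) = _
      push_cast
      rfl
  have hfin := hSt t htinj htS K hK R (fun _ => W) hΩ F (fun x => (hF x).trans (by omega)) hrel2 L
    (fun l => ((R l).map (algebraMap K ℂ))⁻¹ * Z l * W⁻¹) ?_
  · have h1 : (fun l => (R l).map (algebraMap K ℂ) * (((R l).map (algebraMap K ℂ))⁻¹ * Z l * W⁻¹) * W) = Z := by
      funext l
      have h2 := Matrix.mul_nonsing_inv _ (isUnit_iff_ne_zero.2 (hRd l))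
      have h3 := Matrix.nonsing_inv_mul _ (isUnit_iff_ne_zero.2 hWd)
      calc (R l).map (algebraMap K ℂ) * (((R l).map (algebraMap K ℂ))⁻¹ * Z l * W⁻¹) * W
          = ((R l).map (algebraMap K ℂ) * ((R l).map (algebraMap K ℂ))⁻¹) * (Z l * (W⁻¹ * W)) := by
            simp only [Matrix.mul_assoc]
        _ = Z l := by rw [h2, h3, Matrix.mul_one, Matrix.one_mul]
    rw [h1] at hfin
    exact hfin
  · intro l
    obtain ⟨hJ1, hJ2⟩ := hJ (t l) (ht l)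
    have hJc : ((J (t l)).map (algebraMap ℚ ℂ)).transpose = -(J (t l)).map (algebraMap ℚ ℂ) := by
      rw [← Matrix.transpose_map, hJ1]
      ext i j
      simp [Matrix.map_apply]
    rw [alt2 _ _ hJc] at hJ2 ⊢
    rw [← hJ2]
    congr 1
    have h1 : (Z l).det = (Pm ((c : ℝ) / t l)).det := by rw [hZ l, hPd l]
    have h2 : ((R l).map (algebraMap K ℂ)).det * (Y (t l)).det * W.det = (Z l).det := by
      rw [h1, ← hYt l, Matrix.det_mul, Matrix.det_mul]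
    rw [Matrix.det_mul, Matrix.det_mul, Matrix.det_nonsing_inv, Matrix.det_nonsing_inv, ← h2, Ring.inverse_eq_inv']
    have h3 := hRd l
    field_simp

end Pool.Agent.P8H30.LG
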