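import Pool.Agent.P8H30.LG.Main

/-!
# Project LG: forms used in the hand-ins
-/

set_option autoImplicit false

open PowerSeries Module

namespace Pool.Agent.P8H30.LG

open Pool.Agent.P8H40.CY (ptk)

theorem ren_aeval {r r' k : ℕ} (φ : Fin r → Fin r') (K : IntermediateField ℚ ℂ) (z : Fin r' → ℂ)
    (F : MvPolynomial (Fin r ⊕ Fin k × Option (Fin 2 × Fin 2)) K) (L : Fin k → ℂ) (Z : Fin k → Matrix (Fin 2) (Fin 2) ℂ) :
    MvPolynomial.aeval (ptk z L Z) (MvPolynomial.rename (Sum.map φ id) F) = MvPolynomial.aeval (ptk (fun i => z (φ i)) L Z) F := by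
  rw [MvPolynomial.aeval_rename]
  congr 2
  funext x
  rcases x with i | s
  · rfl
  · rfl

theorem ren_deg {r r' k : ℕ} {φ : Fin r → Fin r'} (hφ : Function.Injective φ) {K : IntermediateField ℚ ℂ} {δ : ℕ}
    {F : MvPolynomial (Fin r ⊕ Fin k × Option (Fin 2 × Fin 2)) K} (hF : ∀ x, F.degreeOf x ≤ δ) :
    ∀ x, (MvPolynomial.rename (Sum.map φ id) F).degreeOf x ≤ δ :=
  Pool.Agent.P8H40.CY.degreeOf_rename_le (Function.Injective.sumMap hφ Function.injective_id) hF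

/-- with the constants `w` and a number `s` such that `π = s` or `π = s²` -/
theorem core_w (c : ℕ) (hc : 1 ≤ c) : ∃ (G : ℕ), 1 ≤ G ∧ ∀ k r δ D : ℕ, ∃ (κ : ℝ) (M₀ : ℕ), 0 < κ ∧ c < M₀ ∧
    ∀ M : ℕ, M₀ ≤ M → ∀ (w : Fin r → ℂ) (s : ℂ), (s = (Real.pi : ℂ) ∨ s ^ 2 = (Real.pi : ℂ)) →
      ∀ T : Finset ℕ, (∀ t ∈ T, M ≤ t ∧ (t : ℝ) ≤ M + (M : ℝ) ^ κ) → (∀ t ∈ T, ∀ t' ∈ T, t ≠ t' → (G : ℤ) ≤ |(t : ℤ) - t'|) →
      ∃ S : Finset ℕ, S ⊆ T ∧ S.card ≤ r + 3 ∧ ∀ t : Fin k → ℕ, Function.Injective t → (∀ l, t l ∈ T \ S) →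
        ∀ (K : IntermediateField ℚ ℂ) [FiniteDimensional ℚ K], finrank ℚ K ≤ D →
          ∀ F : MvPolynomial (Fin (r + 1) ⊕ Fin k × Option (Fin 2 × Fin 2)) K, (∀ x, F.degreeOf x ≤ δ) →
            MvPolynomial.aeval (ptk (Fin.snoc w s : Fin (r + 1) → ℂ) (fun l => ((Real.log (t l) : ℝ) : ℂ))
              fun l => Pm ((c : ℝ) / t l)) F = 0 →
            ∀ (L : Fin k → ℂ) (Z : Fin k → Matrix (Fin 2) (Fin 2) ℂ), (∀ l, (Z l).det = -((Real.pi / 2 : ℝ) : ℂ)) →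
              MvPolynomial.aeval (ptk (Fin.snoc w s : Fin (r + 1) → ℂ) L Z) F = 0 := by
  obtain ⟨A, G, hG1, hG⟩ := core c hc
  refine ⟨G, hG1, fun k r δ D => ?_⟩
  obtain ⟨κ, M₀, hκ, hM₀, h⟩ := hG k (r + 2) δ D
  refine ⟨κ, M₀, hκ, hM₀, fun M hM w s hs T hT hTs => ?_⟩
  set z : Fin (r + 2) → ℂ := Fin.snoc (Fin.snoc w s : Fin (r + 1) → ℂ) (A : ℂ) with hz
  have hz1 : ∀ i : Fin (r + 1), z i.castSucc = (Fin.snoc w s : Fin (r + 1) → ℂ) i := by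
    intro i
    rw [hz]
    exact Fin.snoc_castSucc (α := fun _ => ℂ) _ _ i
  have hz2 : z (Fin.last (r + 1)) = (A : ℂ) := by
    rw [hz]
    exact Fin.snoc_last (α := fun _ => ℂ) _ _
  have hz3 : z (Fin.last r).castSucc = s := by
    rw [hz1]
    exact Fin.snoc_last (α := fun _ => ℂ) _ _
  obtain ⟨S, hST, hS, hSt⟩ := h M hM z (fun K => by
    set i₀ : Fin (r + 2) := (Fin.last r).castSucc with hi₀
    have hX : ∀ n : ℕ, ∀ x, (MvPolynomial.C ((1 / 2 : ℚ) : K) * (MvPolynomial.X i₀ : MvPolynomial (Fin (r + 2)) K) ^ n).degreeOf x ≤ n := by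
      intro n x
      refine (MvPolynomial.degreeOf_C_mul_le _ _ _).trans ?_
      refine (MvPolynomial.degreeOf_pow_le _ _ _).trans ?_
      rw [MvPolynomial.degreeOf_X]
      split_ifs
      · omega
      · omega
    have hev : ∀ n : ℕ, MvPolynomial.aeval z (MvPolynomial.C ((1 / 2 : ℚ) : K) * (MvPolynomial.X i₀ : MvPolynomial (Fin (r + 2)) K) ^ n) =
        1 / 2 * s ^ n := by
      intro n
      have hq : (algebraMap K ℂ) ((1 / 2 : ℚ) : K) = 1 / 2 := by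
        rw [map_ratCast]
        norm_num
      rw [map_mul, map_pow, MvPolynomial.aeval_X, MvPolynomial.aeval_C, hi₀, hz3, hq]
    rcases hs with hs | hs
    · refine ⟨_, fun x => (hX 1 x).trans (by omega), ?_⟩
      rw [hev 1, pow_one, hs]
      push_cast
      ring
    · refine ⟨_, fun x => hX 2 x, ?_⟩
      rw [hev 2, hs]
      push_cast
      ring) ⟨_, hz2⟩ T hT hTs
  refine ⟨S, hST, hS, fun t htinj htS K _ hK F hF hrel L Z hZ => ?_⟩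
  have h1 := hSt t htinj htS K hK (MvPolynomial.rename (Sum.map Fin.castSucc id) F) (ren_deg (Fin.castSucc_injective _) hF) (by
    rw [ren_aeval]
    simp only [hz1]
    exact hrel) L Z hZ
  rw [ren_aeval] at h1
  simp only [hz1] at h1
  exact h1

/-- the form of the first hand-in -/
theorem first (c : ℕ) (hc : 1 ≤ c) : ∃ (G : ℕ), 1 ≤ G ∧ ∀ k r δ D : ℕ, ∃ (κ : ℝ) (M₀ : ℕ), 0 < κ ∧ c < M₀ ∧
    ∀ M : ℕ, M₀ ≤ M → ∀ (w : Fin r → ℂ),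
      ∀ T : Finset ℕ, (∀ t ∈ T, M ≤ t ∧ (t : ℝ) ≤ M + (M : ℝ) ^ κ) → (∀ t ∈ T, ∀ t' ∈ T, t ≠ t' → (G : ℤ) ≤ |(t : ℤ) - t'|) →
      ∃ S : Finset ℕ, S ⊆ T ∧ S.card ≤ r + 3 ∧ ∀ t : Fin k → ℕ, Function.Injective t → (∀ l, t l ∈ T \ S) →
        ∀ (K : IntermediateField ℚ ℂ) [FiniteDimensional ℚ K], finrank ℚ K ≤ D →
          ∀ F : MvPolynomial (Fin r ⊕ Fin k × Option (Fin 2 × Fin 2)) K, (∀ x, F.degreeOf x ≤ δ) →
            MvPolynomial.aeval (ptk w (fun l => ((Real.log (t l) : ℝ) : ℂ)) fun l => Pm ((c : ℝ) / t l)) F = 0 →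
            ∀ (L : Fin k → ℂ) (Z : Fin k → Matrix (Fin 2) (Fin 2) ℂ), (∀ l, (Z l).det = -((Real.pi / 2 : ℝ) : ℂ)) →
              MvPolynomial.aeval (ptk w L Z) F = 0 := by
  obtain ⟨G, hG1, hG⟩ := core_w c hc
  refine ⟨G, hG1, fun k r δ D => ?_⟩
  obtain ⟨κ, M₀, hκ, hM₀, h⟩ := hG k r δ D
  refine ⟨κ, M₀, hκ, hM₀, fun M hM w T hT hTs => ?_⟩
  obtain ⟨S, hST, hS, hSt⟩ := h M hM w (Real.pi : ℂ) (Or.inl rfl) T hT hTs
  refine ⟨S, hST, hS, fun t htinj htS K _ hK F hF hrel L Z hZ => ?_⟩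
  have hw : (fun i : Fin r => (Fin.snoc w (Real.pi : ℂ) : Fin (r + 1) → ℂ) i.castSucc) = w := by
    funext i
    exact Fin.snoc_castSucc (α := fun _ => ℂ) _ _ i
  have h1 := hSt t htinj htS K hK (MvPolynomial.rename (Sum.map Fin.castSucc id) F) (ren_deg (Fin.castSucc_injective _) hF) (by
    rw [ren_aeval, hw]
    exact hrel) L Z hZ
  rw [ren_aeval, hw] at h1
  exact h1

/-- no relation at all for one curve -/
theorem first_free (c : ℕ) (hc : 1 ≤ c) : ∃ (G : ℕ), 1 ≤ G ∧ ∀ δ D : ℕ, ∃ (κ : ℝ) (M₀ : ℕ), 0 < κ ∧ c < M₀ ∧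
    ∀ M : ℕ, M₀ ≤ M →
      ∀ T : Finset ℕ, (∀ t ∈ T, M ≤ t ∧ (t : ℝ) ≤ M + (M : ℝ) ^ κ) → (∀ t ∈ T, ∀ t' ∈ T, t ≠ t' → (G : ℤ) ≤ |(t : ℤ) - t'|) →
      ∃ S : Finset ℕ, S ⊆ T ∧ S.card ≤ 3 ∧ ∀ t ∈ T \ S,
        ∀ (K : IntermediateField ℚ ℂ) [FiniteDimensional ℚ K], finrank ℚ K ≤ D →
          ∀ F : MvPolynomial (Option (Fin 2 × Fin 2)) K, (∀ x, F.degreeOf x ≤ δ) → F ≠ 0 →
            MvPolynomial.aeval (fun s : Option (Fin 2 × Fin 2) => s.elim ((Real.log t : ℝ) : ℂ)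
              fun q => Pm ((c : ℝ) / t) q.1 q.2) F ≠ 0 := by
  obtain ⟨G, hG1, hG⟩ := first c hc
  refine ⟨G, hG1, fun δ D => ?_⟩
  obtain ⟨κ, M₀, hκ, hM₀, h⟩ := hG 1 0 δ D
  refine ⟨κ, M₀, hκ, hM₀, fun M hM T hT hTs => ?_⟩
  obtain ⟨S, hST, hS, hSt⟩ := h M hM (fun _ => 0) T hT hTs
  refine ⟨S, hST, hS, fun t ht K _ hK F hF hF0 h0 => hF0 ?_⟩
  set φ : Option (Fin 2 × Fin 2) → Fin 0 ⊕ Fin 1 × Option (Fin 2 × Fin 2) := fun s => Sum.inr (0, s) with hφ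
  have hφi : Function.Injective φ := by
    intro a b hab
    have h1 := Sum.inr_injective hab
    exact congrArg Prod.snd h1
  have hev : ∀ (L : Fin 1 → ℂ) (Z : Fin 1 → Matrix (Fin 2) (Fin 2) ℂ),
      MvPolynomial.aeval (ptk (fun _ : Fin 0 => (0 : ℂ)) L Z) (MvPolynomial.rename φ F) =
        MvPolynomial.aeval (fun s : Option (Fin 2 × Fin 2) => s.elim (L 0) fun q => Z 0 q.1 q.2) F := by
    intro L Z
    rw [MvPolynomial.aeval_rename]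
    have h1 : (ptk (fun _ : Fin 0 => (0 : ℂ)) L Z) ∘ φ = fun s : Option (Fin 2 × Fin 2) => s.elim (L 0) fun q => Z 0 q.1 q.2 := by
      funext s
      rcases s with _ | s
      · rfl
      · rfl
    rw [h1]
  refine Pool.Agent.P8H22.LG.alg K inferInstance F fun L Z hZ => ?_
  have h1 := hSt (fun _ => t) (Function.injective_of_subsingleton _) (fun _ => ht) K hK (MvPolynomial.rename φ F)
    (Pool.Agent.P8H40.CY.degreeOf_rename_le hφi hF) (by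
      rw [hev]
      exact h0) (fun _ => L) (fun _ => Z) (fun _ => hZ)
  rw [hev] at h1
  exact h1

end Pool.Agent.P8H30.LG
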