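import Pool.Agent.TH818.AR.Sing

/-!
# Project LG: complete elliptic integrals and the Frobenius basis at 0: statements of the packages

`KK`, `EE` (`Pool.Agent.TH818.AR`) are the complete elliptic integrals as functions of the parameter `x = k²`. The library has:
`Pool.Agent.TH818.AR.an` (analytic on `x < 1`), `Pool.Agent.TH818.AR.ode` (the derivatives), `Pool.Agent.TH818.AR.leg` (Legendre's
relation with an unspecified constant), `Pool.Agent.TH818.AR.sing`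
(`KK (1 - t) = KK t * (κ log t + G t)` near `0`, `G` analytic).
-/

set_option autoImplicit false

open PowerSeries

namespace Pool.Agent.P8H30.LG

open Pool.Agent.TH818.AR (KK EE)

/-- the power series `k + ε` in the variable `ε` -/
noncomputable def sh (k : ℕ) : PowerSeries ℚ := C (k : ℚ) + X

/-- `∏_{l < k} (l + ε + 1/2)² / (l + 1 + ε)²` -/
noncomputable def fr (k : ℕ) : PowerSeries ℚ :=
  ∏ l ∈ Finset.range k, (((sh l + C (1 / 2 : ℚ)) * (sh l + C (1 - 1 / 2 : ℚ))) * ((sh (l + 1))⁻¹) ^ 2)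

/-- the coefficients at `ε^0` -/
noncomputable def u (k : ℕ) : ℝ := ((coeff 0 (fr k) : ℚ) : ℝ)

/-- the coefficients at `ε^1` -/
noncomputable def v (k : ℕ) : ℝ := ((coeff 1 (fr k) : ℚ) : ℝ)

/-- PACKAGE REC (50 lines). Use `(sh (k+1))^2 * fr (k+1) = (sh k + C (1/2))^2 * fr k` (`PowerSeries.mul_inv_cancel`, the constant
coefficient `k + 1` is not `0`) and compare the coefficients at `ε^0`, `ε^1`. Bounds by induction: `u (k+1) = r² u k` with
`r = (k+1/2)/(k+1)`, `0 ≤ u k ≤ 1`, `v (k+1) = r² v k + r u k / (k+1)²`·`(k+1)`… precisely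
`(k+1)² v (k+1) = (k+1/2)² v k + u k (k+1/2)/(k+1)`, so `0 ≤ v (k+1) ≤ v k + 1`. -/
def S_REC : Prop := u 0 = 1 ∧ v 0 = 0 ∧
  (∀ k : ℕ, ((k : ℝ) + 1) ^ 2 * u (k + 1) = ((k : ℝ) + 1 / 2) ^ 2 * u k) ∧
  (∀ k : ℕ, ((k : ℝ) + 1) ^ 2 * v (k + 1) + 2 * ((k : ℝ) + 1) * u (k + 1) =
    ((k : ℝ) + 1 / 2) ^ 2 * v k + 2 * ((k : ℝ) + 1 / 2) * u k) ∧
  (∀ k : ℕ, |u k| ≤ 1) ∧ (∀ k : ℕ, |v k| ≤ k) ∧
  (∀ k : ℕ, ((coeff 0 (sh k * fr k) : ℚ) : ℝ) = k * u k) ∧ (∀ k : ℕ, ((coeff 1 (sh k * fr k) : ℚ) : ℝ) = k * v k + u k)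

/-- PACKAGE GEN (60 lines). Power series with coefficients of polynomial growth: convergence, derivative, behaviour at `0`. The
derivative: `hasDerivAt_tsum_of_isPreconnected` on the ball of radius `ρ`, `x < ρ < 1`, with the bound `k (k+1)^3 ρ^(k-1)`
(`summable_pow_mul_geometric_of_norm_lt_one`); the second part: `∑ (k ≥ 1) |w k| x^k ≤ x ∑ (k ≥ 1) (k+1)^3 (1/2)^(k-1)`. -/
def S_GEN : Prop := ∀ w : ℕ → ℝ, (∀ k : ℕ, |w k| ≤ ((k : ℝ) + 1) ^ 3) →
  (∀ x : ℝ, 0 < x → x < 1 → Summable (fun k : ℕ => w k * x ^ k) ∧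
    HasDerivAt (fun y : ℝ => ∑' k : ℕ, w k * y ^ k) ((∑' k : ℕ, (k : ℝ) * w k * x ^ k) / x) x) ∧
  ∃ B : ℝ, ∀ x : ℝ, 0 < x → x ≤ 1 / 2 → |(∑' k : ℕ, w k * x ^ k) - w 0| ≤ B * x

/-- `∑ u_k x^k = F(1/2,1/2;1;x)` -/
noncomputable def f (x : ℝ) : ℝ := ∑' k : ℕ, u k * x ^ k
/-- `θ f` -/
noncomputable def h (x : ℝ) : ℝ := ∑' k : ℕ, (k : ℝ) * u k * x ^ k
/-- `∑ v_k x^k` -/
noncomputable def g (x : ℝ) : ℝ := ∑' k : ℕ, v k * x ^ k
/-- `θ g` -/
noncomputable def p (x : ℝ) : ℝ := ∑' k : ℕ, (k : ℝ) * v k * x ^ k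

/-- the differential equations -/
def ODE : Prop := ∀ x : ℝ, 0 < x → x < 1 →
  HasDerivAt f (h x / x) x ∧ HasDerivAt h ((x * h x + x / 4 * f x) / ((1 - x) * x)) x ∧
  HasDerivAt g (p x / x) x ∧ HasDerivAt p ((x * p x + x / 4 * g x - 2 * (1 - x) * h x + x * f x) / ((1 - x) * x)) x

/-- the behaviour at 0 -/
def SMALL : Prop := ∃ B : ℝ, ∀ x : ℝ, 0 < x → x ≤ 1 / 2 → |f x - 1| ≤ B * x ∧ |h x| ≤ B * x ∧ |g x| ≤ B * x ∧ |p x| ≤ B * x

/-- PACKAGE ODE (80 lines). `SMALL` and the derivatives of `f`, `g` directly from `S_GEN` with `w = u, k u, v, k v`; the derivative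
of `h` is `(∑ k² u_k x^k)/x` and `(1-x) ∑ k² u_k x^k = x (h x + f x / 4)` by the recurrence: coefficient of `x^(k+1)`:
`(k+1)² u (k+1) - k² u k = k u k + u k / 4`; use `Summable.tsum_eq_zero_add` (the term `k = 0` is `0`), `tsum_mul_left`. In the same
way `(1-x) ∑ k² v_k x^k = x p x + x/4 g x - 2 (1-x) h x + x f x`: coefficient of `x^(k+1)`:
`(k+1)² v (k+1) - k² v k = k v k + v k / 4 - 2 (k+1) u (k+1) + 2 k u k + u k`. -/
def S_ODE : Prop := S_REC → S_GEN → ODE ∧ SMALL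

/-- PACKAGE LEG (80 lines). The constant of Legendre's relation is `π / 2` and bounds at `0`. With
`Pool.Agent.TH818.AR.leg` the left side is a constant `W`; let `x → 0+`: `KK x * EE (1-x) → π/2 · 1` (`KK` continuous at `0`,
`KK 0 = π/2`; `EE` continuous at `1`: `intervalIntegral.continuous_parametric_intervalIntegral_of_continuous'`,
`EE 1 = ∫_0^{π/2} cos = 1`), and `(EE x - KK x) * KK (1-x) → 0` as `|EE x - KK x| ≤ B x` (both are analytic at `0` with value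
`π/2`) and `KK (1-x) = KK x (κ log x + G x)` (`Pool.Agent.TH818.AR.sing`), `x log x → 0`. -/
def S_LEG : Prop := (∀ x : ℝ, 0 < x → x < 1 → KK x * EE (1 - x) + EE x * KK (1 - x) - KK x * KK (1 - x) = Real.pi / 2) ∧
  ∃ B x₀ : ℝ, 0 < x₀ ∧ x₀ < 1 ∧ ∀ x : ℝ, 0 < x → x ≤ x₀ → |KK x - Real.pi / 2| ≤ B * x ∧ |EE x - (1 - x) * KK x| ≤ B * x

/-- PACKAGE WRO (100 lines). Constants: there is `A` with `KK x = π/2 f x` etc. Proof. Put `K = KK x`, `K₁ = (EE x - (1-x) KK x)/(2(1-x))`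
(`= θK`), `K' = KK (1-x)`, `K₁' = -(EE (1-x) - x KK (1-x))/(2(1-x))` (`= θK'`; the derivatives follow from
`Pool.Agent.TH818.AR.ode` and the chain rule, see `Pool.Agent.TH818.AR.SingAux.KK_deriv1`, `EE_deriv1`), `y = g + f log x`,
`y₁ = f + p + h log x` (`= θy`). The functions
`(1-x)(f y₁ - h y)`, `(1-x)(y₁ K - y K₁)`, `(1-x)(f K₁ - h K)`, `(1-x)(y₁ K' - y K₁')`, `(1-x)(f K₁' - h K')` have the derivative `0` on
`(0,1)` (all pairs solve `θ(a, b) = (b, (x b + x a / 4)/(1-x))`), hence are constant; the first constant is `1`, the second `π/2`, the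
third `0` (let `x → 0+`, `SMALL`, the bounds of `S_LEG` and `x log x → 0`); with the unknown constants `A`, `B` for the last two:
`K = π/2 f`, `K₁ = π/2 h`, `K' = A f + B y`, `K₁' = A h + B y₁` (Cramer: `a = (1-x)((f y₁ - h y) a)`…), and
`(1-x)(K K₁' - K' K₁) = -π/4` by Legendre's relation `= (π/2) B`, so `B = -1/2`. -/
def S_WRO : Prop := ODE → SMALL → S_LEG → ∃ A : ℝ, ∀ x : ℝ, 0 < x → x < 1 →
  KK x = Real.pi / 2 * f x ∧ EE x - (1 - x) * KK x = Real.pi * (1 - x) * h x ∧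
  KK (1 - x) = A * f x - 1 / 2 * (g x + Real.log x * f x) ∧
  EE (1 - x) - x * KK (1 - x) = -(2 * (1 - x)) * (A * h x - 1 / 2 * (f x + p x + Real.log x * h x))

/-- PACKAGE ALG (60 lines). A polynomial over a number field which vanishes on the hypersurface `det = -π/2` is zero. Proof: for
`L, a, b` in `ℚ` and `d ∈ ℚ`, `d ≠ 0` the polynomial `q(y) = F(L, Z)` with `Z = (( (y + a b) / d , a), (b, d))`, `det Z = y`, has
coefficients in `K` and the root `y = -π/2`, which is transcendental (`Pool.Agent.H340R2.transcendental_pi_complex` or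
`Pool.Agent.H335R2` …), so `q = 0`; so `F` vanishes at all rational points with `d ≠ 0` (put `y = d a' - a b`), so the polynomial
`F · X_d` vanishes at all rational points and is `0` (`MvPolynomial.funext_of_infinite`-like / `MvPolynomial.funext_set`
with the infinite set of rational numbers). -/
def S_ALG : Prop := ∀ (K : IntermediateField ℚ ℂ), FiniteDimensional ℚ K → ∀ F : MvPolynomial (Option (Fin 2 × Fin 2)) K,
  (∀ (L : ℂ) (Z : Matrix (Fin 2) (Fin 2) ℂ), Z.det = -((Real.pi / 2 : ℝ) : ℂ) →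
    MvPolynomial.aeval (fun s : Option (Fin 2 × Fin 2) => s.elim L fun q => Z q.1 q.2) F = 0) → F = 0

end Pool.Agent.P8H30.LG
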