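import Pool.Agent.P8H30.LG.Stm
import Pool.Agent.P8H40.CY.Fin4

/-!
# Project LG: the entries of the matrix of the Frobenius basis for `m = 1`, `α = 1/2`
-/

set_option autoImplicit false

open PowerSeries Module

namespace Pool.Agent.P8H30.LG

open Pool.Agent.TH818.AR (KK EE)
open Pool.Agent.P8H40.HA (Ya)

/-- `α = 1/2` -/
def al : Fin 1 → ℚ := fun _ => 1 / 2

/-- general formula for the entries -/
theorem Ya_eq {m : ℕ} (α : Fin m → ℚ) (c t : ℕ) (hc : 1 ≤ c) (ht : 1 ≤ t) (i j : Fin (2 * m)) :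
    Ya α c t i j = ∑ l ∈ Finset.range ((j : ℕ) + 1), ((Real.log (1 / t) ^ l / l.factorial : ℝ) : ℂ) *
      ∑' k : ℕ, ((coeff ((j : ℕ) - l) (sh k ^ (i : ℕ) * Pool.Agent.P8H40.HA.ga α k) : ℚ) : ℂ) * ((c : ℂ) / (t : ℂ)) ^ k := by
  have hc0 : (c : ℝ) ≠ 0 := by
    have : c ≠ 0 := by omega
    exact_mod_cast this
  have ht0 : (t : ℝ) ≠ 0 := by
    have : t ≠ 0 := by omega
    exact_mod_cast this
  unfold Pool.Agent.P8H40.HA.Ya
  rw [Matrix.mul_apply]
  have hE : ∀ a : Fin (2 * m), Pool.Agent.Y119.HY.E (Pool.Agent.Y119.HY.cm (Pool.Agent.Y119.HY.Am (2 * m)))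
      (-((Real.log t : ℝ) : ℂ)) a j = ∑ l ∈ Finset.range (2 * m),
        if (j : ℕ) = a + l then ((Real.log (1 / t) ^ l / l.factorial : ℝ) : ℂ) else 0 := by
    intro a
    unfold Pool.Agent.Y119.HY.E
    rw [Matrix.sum_apply]
    refine Finset.sum_congr rfl fun l _ => ?_
    rw [Matrix.smul_apply, ← Pool.Agent.Y119.HY.cm_pow, Pool.Agent.Y119.HY.cm_apply, Pool.Agent.Y119.HY.Am_pow, smul_eq_mul,
      one_div, Real.log_inv]
    split_ifs
    · push_cast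
      ring
    · simp
  simp only [hE, Finset.mul_sum]
  rw [Finset.sum_comm]
  have hsub : Finset.range ((j : ℕ) + 1) ⊆ Finset.range (2 * m) := by
    intro l hl
    rw [Finset.mem_range] at hl ⊢
    have := j.2
    omega
  symm
  refine Finset.sum_subset_zero_on_sdiff hsub (fun l hl => ?_) fun l hl => ?_
  · rw [Finset.mem_sdiff, Finset.mem_range, Finset.mem_range] at hl
    refine Finset.sum_eq_zero fun a _ => ?_
    rw [if_neg (by omega), mul_zero]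
  · rw [Finset.mem_range] at hl
    have hj := j.2
    rw [Finset.sum_eq_single (⟨(j : ℕ) - l, by omega⟩ : Fin (2 * m))]
    · rw [if_pos (by simp only; omega), mul_comm]
      congr 1
      unfold Pool.Agent.P8H40.HA.Vx Pool.Agent.Y113.ev
      rw [Matrix.of_apply, Complex.ofReal_tsum]
      refine tsum_congr fun k => ?_
      have h1 : coeff k (Pool.Agent.P8H40.HA.Ha α i (⟨(j : ℕ) - l, by omega⟩ : Fin (2 * m))) =
          coeff ((j : ℕ) - l) (sh k ^ (i : ℕ) * Pool.Agent.P8H40.HA.ga α k) := by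
        unfold Pool.Agent.P8H40.HA.Ha
        rw [Matrix.of_apply, coeff_mk]
        rfl
      have h2 : (1 / ((t : ℝ) / c)) = (c : ℝ) / t := by
        field_simp
      rw [h1, h2]
      push_cast
      rfl
    · intro a _ ha
      rw [if_neg, mul_zero]
      intro h
      apply ha
      apply Fin.ext
      simp only
      omega
    · intro h
      exact absurd (Finset.mem_univ _) h

theorem ga_eq (k : ℕ) : Pool.Agent.P8H40.HA.ga al k = fr k := by
  unfold Pool.Agent.P8H40.HA.ga fr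
  refine Finset.prod_congr rfl fun l _ => ?_
  rw [Fin.prod_univ_one]
  rfl

/-- a real series as a complex one -/
theorem ser_eq (w : ℕ → ℚ) (c t : ℕ) : (∑' k : ℕ, ((w k : ℚ) : ℂ) * ((c : ℂ) / (t : ℂ)) ^ k) =
    ((∑' k : ℕ, ((w k : ℚ) : ℝ) * ((c : ℝ) / t) ^ k : ℝ) : ℂ) := by
  rw [Complex.ofReal_tsum]
  refine tsum_congr fun k => ?_
  push_cast
  rfl

theorem mat_of_q (A : Matrix (Fin 2) (Fin 2) ℂ) (q : ℕ → ℕ → ℝ) (L : ℝ)
    (hA : ∀ (a b : ℕ) (ha : a < 2) (hb : b < 2), A ⟨a, ha⟩ ⟨b, hb⟩ =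
      ∑ l ∈ Finset.range (b + 1), ((L ^ l / l.factorial : ℝ) : ℂ) * ((q a (b - l) : ℝ) : ℂ)) :
    A = !![((q 0 0 : ℝ) : ℂ), ((q 0 1 + L * q 0 0 : ℝ) : ℂ); ((q 1 0 : ℝ) : ℂ), ((q 1 1 + L * q 1 0 : ℝ) : ℂ)] := by
  have h00 : A 0 0 = ((q 0 0 : ℝ) : ℂ) := by
    have h := hA 0 0 (by norm_num) (by norm_num)
    simpa using h
  have h10 : A 1 0 = ((q 1 0 : ℝ) : ℂ) := by
    have h := hA 1 0 (by norm_num) (by norm_num)
    simpa using h
  have h01 : A 0 1 = ((q 0 1 + L * q 0 0 : ℝ) : ℂ) := by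
    have h := hA 0 1 (by norm_num) (by norm_num)
    rw [Finset.sum_range_succ, Finset.sum_range_one] at h
    simpa using h
  have h11 : A 1 1 = ((q 1 1 + L * q 1 0 : ℝ) : ℂ) := by
    have h := hA 1 1 (by norm_num) (by norm_num)
    rw [Finset.sum_range_succ, Finset.sum_range_one] at h
    simpa using h
  rw [Matrix.eta_fin_two A, h00, h01, h10, h11]

/-- the series -/
noncomputable def qq (x : ℝ) (a d : ℕ) : ℝ := ∑' k : ℕ, ((coeff d (sh k ^ a * fr k) : ℚ) : ℝ) * x ^ k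

theorem Ya_qq (c t : ℕ) (hc : 1 ≤ c) (ht : 1 ≤ t) (a b : ℕ) (ha : a < 2 * 1) (hb : b < 2 * 1) :
    Ya al c t ⟨a, ha⟩ ⟨b, hb⟩ = ∑ l ∈ Finset.range (b + 1), ((Real.log (1 / t) ^ l / l.factorial : ℝ) : ℂ) *
      ((qq ((c : ℝ) / t) a (b - l) : ℝ) : ℂ) := by
  rw [Ya_eq al c t hc ht]
  refine Finset.sum_congr rfl fun l _ => ?_
  unfold qq
  rw [← ser_eq (fun k => coeff (b - l) (sh k ^ a * fr k)) c t]
  simp only [ga_eq]

theorem qq_eq (hREC : S_REC) (hGEN : S_GEN) {x : ℝ} (hx0 : 0 < x) (hx1 : x < 1) :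
    qq x 0 0 = f x ∧ qq x 0 1 = g x ∧ qq x 1 0 = h x ∧ qq x 1 1 = f x + p x := by
  obtain ⟨-, -, -, -, hu, hv, hk0, hk1⟩ := hREC
  refine ⟨?_, ?_, ?_, ?_⟩
  · unfold qq f u
    refine tsum_congr fun k => ?_
    rw [pow_zero, one_mul]
  · unfold qq g v
    refine tsum_congr fun k => ?_
    rw [pow_zero, one_mul]
  · unfold qq h
    refine tsum_congr fun k => ?_
    rw [pow_one, hk0]
  · have hs1 := ((hGEN u fun k => (hu k).trans (by
      have : (1 : ℝ) ≤ (k : ℝ) + 1 := by linarith [Nat.cast_nonneg (α := ℝ) k]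
      exact one_le_pow₀ this)).1 _ hx0 hx1).1
    have hs2 := ((hGEN (fun k => (k : ℝ) * v k) fun k => by
      rw [abs_mul, Nat.abs_cast]
      have h1 := hv k
      have h2 : (0 : ℝ) ≤ k := Nat.cast_nonneg k
      calc (k : ℝ) * |v k| ≤ k * k := mul_le_mul_of_nonneg_left h1 h2
        _ ≤ ((k : ℝ) + 1) ^ 3 := by nlinarith [mul_nonneg h2 h2, mul_nonneg (mul_nonneg h2 h2) h2]).1 _ hx0 hx1).1
    have h3 := hs1.tsum_add hs2
    unfold qq f p
    rw [← h3]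
    refine tsum_congr fun k => ?_
    rw [pow_one, hk1]
    ring

/-- the entries -/
theorem Ya_mat (hREC : S_REC) (hGEN : S_GEN) (c t : ℕ) (hc : 1 ≤ c) (hct : c < t) (A : Matrix (Fin 2) (Fin 2) ℂ)
    (hA : A = Ya al c t) :
    A = !![((f ((c : ℝ) / t) : ℝ) : ℂ),
        ((g ((c : ℝ) / t) + Real.log (1 / t) * f ((c : ℝ) / t) : ℝ) : ℂ);
      ((h ((c : ℝ) / t) : ℝ) : ℂ), ((f ((c : ℝ) / t) + p ((c : ℝ) / t) + Real.log (1 / t) * h ((c : ℝ) / t) : ℝ) : ℂ)] := by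
  have ht0 : (0 : ℝ) < t := by
    have : 0 < t := by omega
    exact_mod_cast this
  have hx0 : 0 < (c : ℝ) / t := by
    have : (0 : ℝ) < c := by exact_mod_cast hc
    positivity
  have hx1 : (c : ℝ) / t < 1 := by
    rw [div_lt_one ht0]
    exact_mod_cast hct
  obtain ⟨h1, h2, h3, h4⟩ := qq_eq hREC hGEN hx0 hx1
  rw [← h1, ← h2, ← h3]
  rw [h1, add_assoc, ← add_assoc, ← h4, ← h1]
  refine mat_of_q A (qq ((c : ℝ) / t)) (Real.log (1 / t)) fun a b ha hb => ?_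
  rw [hA]
  exact Ya_qq c t hc (by omega) a b ha hb

end Pool.Agent.P8H30.LG
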